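import Pool.Agent.Helper183_AV.Rank

/-!
# The structural rank
-/

set_option autoImplicit false

open Module

namespace Pool.Agent.Helper183_AV

/-- The map `log` is compatible with the action of `D`. -/
def Equivariant {D M κ : Type} [DivisionRing D] [Algebra ℚ D] [AddCommGroup M] [Module D M]
    [Module ℚ M] [Field κ] [Algebra ℚ κ] {n : ℕ} (ρ : D →ₐ[ℚ] Matrix (Fin n) (Fin n) ℚ)
    (log : M →ₗ[ℚ] (Fin n → κ)) : Prop :=
  ∀ (d : D) (x : M), log (d • x) = ((ρ d).map (algebraMap ℚ κ)).mulVec (log x)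

/-- The dimension over `κ` of the span of the logarithms of the elements of `W`. -/
noncomputable def closureRank {M κ : Type} [AddCommGroup M] [Module ℚ M] [Field κ] [Algebra ℚ κ]
    {n : ℕ} (log : M →ₗ[ℚ] (Fin n → κ)) (W : Submodule ℚ M) : ℕ :=
  finrank κ (Submodule.span κ (log '' (W : Set M)))

section basic

variable {M κ : Type} [AddCommGroup M] [Module ℚ M] [Field κ] [Algebra ℚ κ] {n : ℕ}
  (log : M →ₗ[ℚ] (Fin n → κ))

theorem closureRank_mono {W W' : Submodule ℚ M} (h : W ≤ W') :
    closureRank log W ≤ closureRank log W' :=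
  Submodule.finrank_mono (Submodule.span_mono (Set.image_mono h))

theorem closureRank_le (W : Submodule ℚ M) : closureRank log W ≤ n := by
  have := Submodule.finrank_le (Submodule.span κ (log '' (W : Set M)))
  rwa [Module.finrank_fin_fun] at this

theorem span_eq [FiniteDimensional ℚ M] (W : Submodule ℚ M) {m : ℕ} (w : Basis (Fin m) ℚ W) :
    Submodule.span κ (log '' (W : Set M)) = Submodule.span κ (Set.range fun a => log (w a : M)) := by
  apply le_antisymm
  · rw [Submodule.span_le]
    rintro _ ⟨x, hx, rfl⟩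
    have h1 : x = ∑ a, w.repr ⟨x, hx⟩ a • (w a : M) := by
      have h2 : ((∑ a, w.repr ⟨x, hx⟩ a • w a : W) : M) = x := by rw [w.sum_repr]
      refine h2.symm.trans ?_
      simp only [Submodule.coe_sum, Submodule.coe_smul]
    rw [h1, map_sum]
    refine Submodule.sum_mem _ fun a _ => ?_
    rw [LinearMap.map_smul, ← algebraMap_smul κ]
    exact Submodule.smul_mem _ _ (Submodule.subset_span ⟨a, rfl⟩)
  · rw [Submodule.span_le]
    rintro _ ⟨a, rfl⟩
    exact Submodule.subset_span ⟨_, (w a).2, rfl⟩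

theorem closureRank_le_finrank [FiniteDimensional ℚ M] (W : Submodule ℚ M) :
    closureRank log W ≤ finrank ℚ W := by
  rw [closureRank, span_eq log W (finBasis ℚ W)]
  have := finrank_range_le_card (R := κ) (fun a => log (finBasis ℚ W a : M))
  simpa [Set.finrank] using this

theorem closureRank_eq_of_indep [FiniteDimensional ℚ M] (W : Submodule ℚ M) {m : ℕ}
    (w : Basis (Fin m) ℚ W) (h : LinearIndependent κ fun a => log (w a : M)) :
    closureRank log W = finrank ℚ W := by
  rw [closureRank, span_eq log W w, finrank_span_eq_card h, finrank_eq_card_basis w]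

end basic

section gram

variable {K : Type*} [Field K]

/-- If the Gram determinant does not vanish then the columns are independent. -/
theorem indep_of_gram {n m : ℕ} (L : Matrix (Fin n) (Fin m) K)
    (h : (L.transpose * L).det ≠ 0) : LinearIndependent K (fun a => L.col a) := by
  rw [Fintype.linearIndependent_iff]
  intro g hg
  have h1 : L.mulVec g = 0 := by
    rw [Matrix.mulVec_eq_sum, ← hg]
    refine Finset.sum_congr rfl fun a _ => ?_
    ext l
    simp [Matrix.col, mul_comm]
  have h2 : (L.transpose * L).mulVec g = 0 := by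
    rw [← Matrix.mulVec_mulVec, h1, Matrix.mulVec_zero]
  by_contra hne
  apply h
  rw [← Matrix.exists_mulVec_eq_zero_iff]
  refine ⟨g, fun h0 => hne fun a => congrFun h0 a, h2⟩

/-- Over the rational numbers the Gram determinant of independent columns does not vanish. -/
theorem gram_ne_zero {n m : ℕ} (L : Matrix (Fin n) (Fin m) ℚ)
    (h : LinearIndependent ℚ (fun a => L.col a)) : (L.transpose * L).det ≠ 0 := by
  intro h0
  rw [← Matrix.exists_mulVec_eq_zero_iff] at h0
  obtain ⟨v, hv0, hv⟩ := h0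
  have h1 : v ∈ LinearMap.ker (L.transpose * L).mulVecLin := hv
  rw [Matrix.ker_mulVecLin_transpose_mul_self] at h1
  have h2 : L.mulVec v = 0 := h1
  rw [Fintype.linearIndependent_iff] at h
  apply hv0
  funext a
  refine h v ?_ a
  rw [Matrix.mulVec_eq_sum] at h2
  rw [← h2]
  refine Finset.sum_congr rfl fun a _ => ?_
  ext l
  simp [Matrix.col, mul_comm]

end gram

section main

variable {D M : Type} [DivisionRing D] [Algebra ℚ D] [AddCommGroup M] [Module D M] [Module ℚ M]
  [IsScalarTower ℚ D M] [FiniteDimensional ℚ M] {n r : ℕ}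

/-- The matrix of linear forms. -/
noncomputable def formMatrix (ρ : D →ₐ[ℚ] Matrix (Fin n) (Fin n) ℚ) (b : Basis (Fin r) D M)
    {m : ℕ} (w : Fin m → M) : Matrix (Fin n) (Fin m) (MvPolynomial (Fin r × Fin n) ℚ) :=
  Matrix.of fun l a => ∑ i, ∑ k, MvPolynomial.C (ρ (b.repr (w a) i) l k) * MvPolynomial.X (i, k)

omit [IsScalarTower ℚ D M] [FiniteDimensional ℚ M] in
theorem eval_formMatrix {κ : Type} [Field κ] [Algebra ℚ κ] (ρ : D →ₐ[ℚ] Matrix (Fin n) (Fin n) ℚ)
    (b : Basis (Fin r) D M) {m : ℕ} (w : Fin m → M) (log : M →ₗ[ℚ] (Fin n → κ))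
    (hlog : Equivariant ρ log) :
    ((formMatrix ρ b w).map (MvPolynomial.aeval (fun x : Fin r × Fin n => log (b x.1) x.2))) =
      Matrix.of fun l a => log (w a) l := by
  ext l a
  simp only [formMatrix, Matrix.map_apply, Matrix.of_apply, map_sum, map_mul, MvPolynomial.aeval_X,
    MvPolynomial.algHom_C]
  conv_rhs => rw [← b.sum_repr (w a), map_sum, Finset.sum_apply]
  refine Finset.sum_congr rfl fun i _ => ?_
  rw [hlog]
  simp [Matrix.mulVec, dotProduct]

omit [IsScalarTower ℚ D M] [FiniteDimensional ℚ M] in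
theorem eval_det {κ : Type} [Field κ] [Algebra ℚ κ] (ρ : D →ₐ[ℚ] Matrix (Fin n) (Fin n) ℚ)
    (b : Basis (Fin r) D M) {m : ℕ} (w : Fin m → M) (log : M →ₗ[ℚ] (Fin n → κ))
    (hlog : Equivariant ρ log) :
    MvPolynomial.aeval (fun x : Fin r × Fin n => log (b x.1) x.2)
      ((formMatrix ρ b w).transpose * formMatrix ρ b w).det =
      ((Matrix.of fun l a => log (w a) l : Matrix (Fin n) (Fin m) κ).transpose *
        (Matrix.of fun l a => log (w a) l)).det := by
  rw [← eval_formMatrix ρ b w log hlog]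
  rw [AlgHom.map_det]
  congr 1
  rw [AlgHom.mapMatrix_apply, Matrix.map_mul]
  rfl

/-- The first part. -/
theorem structural (ρ : D →ₐ[ℚ] Matrix (Fin n) (Fin n) ℚ) (b : Basis (Fin r) D M)
    (W : Submodule ℚ M) (hW : finrank ℚ W ≤ n) :
    ∃ Φ : MvPolynomial (Fin r × Fin n) ℚ, Φ ≠ 0 ∧
      ∀ (κ : Type) [Field κ] [Algebra ℚ κ] (log : M →ₗ[ℚ] (Fin n → κ)), Equivariant ρ log →
        MvPolynomial.aeval (fun x => log (b x.1) x.2) Φ ≠ 0 →
          closureRank log W = finrank ℚ W := by
  classical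
  -- the structure of a `D`-module on `ℚ ^ n`
  let T := Fin n → ℚ
  let iT : Module D T := Module.compHom T
    ((Matrix.toLinAlgEquiv' : Matrix (Fin n) (Fin n) ℚ ≃ₐ[ℚ] _).toRingEquiv.toRingHom.comp
      ρ.toRingHom)
  have hsm : ∀ (d : D) (x : T), d • x = (ρ d).mulVec x := fun d x => rfl
  have : IsScalarTower ℚ D T := ⟨fun q d x => by
    rw [hsm, hsm, map_smul, Matrix.smul_mulVec]⟩
  obtain ⟨f, hf⟩ := exists_injective (k := ℚ) (D := D) (M := M) (T := T) W (by
    rw [Module.finrank_fin_fun]; exact hW)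
  have hfe : Equivariant (κ := ℚ) ρ (f.restrictScalars ℚ) := by
    intro d x
    show f (d • x) = _
    rw [map_smul, hsm]
    simp
  let w := finBasis ℚ W
  refine ⟨((formMatrix ρ b (fun a => (w a : M))).transpose * formMatrix ρ b (fun a => (w a : M))).det,
    ?_, ?_⟩
  · intro h0
    have h1 := eval_det (κ := ℚ) ρ b (fun a => (w a : M)) (f.restrictScalars ℚ) hfe
    rw [h0, map_zero] at h1
    refine gram_ne_zero _ ?_ h1.symm
    have h2 : LinearIndependent ℚ fun a => ((f.restrictScalars ℚ) ∘ₗ W.subtype) (w a) :=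
      w.linearIndependent.map' _ (LinearMap.ker_eq_bot.mpr hf)
    exact h2
  · intro κ _ _ log hlog hΦ
    rw [eval_det ρ b (fun a => (w a : M)) log hlog] at hΦ
    exact closureRank_eq_of_indep log W w (indep_of_gram _ hΦ)

/-- The first part for all subspaces. -/
theorem structural' (ρ : D →ₐ[ℚ] Matrix (Fin n) (Fin n) ℚ) (b : Basis (Fin r) D M)
    (W : Submodule ℚ M) :
    ∃ Φ : MvPolynomial (Fin r × Fin n) ℚ, Φ ≠ 0 ∧
      ∀ (κ : Type) [Field κ] [Algebra ℚ κ] (log : M →ₗ[ℚ] (Fin n → κ)), Equivariant ρ log →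
        MvPolynomial.aeval (fun x => log (b x.1) x.2) Φ ≠ 0 →
          closureRank log W = min (finrank ℚ W) n := by
  obtain ⟨W', hW', hfr⟩ : ∃ W' ≤ W, finrank ℚ W' = min (finrank ℚ W) n := by
    obtain ⟨v, hv⟩ := exists_linearIndependent_of_le_finrank (R := ℚ) (M := W)
      (min_le_left (finrank ℚ W) n)
    refine ⟨(Submodule.span ℚ (Set.range v)).map W.subtype, Submodule.map_subtype_le _ _, ?_⟩
    rw [Submodule.finrank_map_subtype_eq, finrank_span_eq_card hv, Fintype.card_fin]
  obtain ⟨Φ, h0, h1⟩ := structural ρ b W' (by omega)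
  refine ⟨Φ, h0, fun κ _ _ log hlog hΦ => ?_⟩
  have h2 := h1 κ log hlog hΦ
  have h3 := closureRank_mono log hW'
  have h4 := closureRank_le log W
  have h5 := closureRank_le_finrank log W
  omega

end main

end Pool.Agent.Helper183_AV
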