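import Pool.Agent.Helper183_AV.Gram

/-!
# Lines over commutative subfields
-/

set_option autoImplicit false

open Module Polynomial

namespace Pool.Agent.Helper183_AV

/-- Independence of rational vectors is preserved by extension of scalars. -/
theorem indep_map {κ J ι : Type*} [Field κ] [Algebra ℚ κ] [Fintype ι] (v : ι → J → ℚ)
    (hv : LinearIndependent ℚ v) : LinearIndependent κ (fun a j => algebraMap ℚ κ (v a j)) := by
  rw [Fintype.linearIndependent_iff] at hv ⊢
  intro c hc a
  rw [← Module.forall_dual_apply_eq_zero_iff ℚ]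
  intro φ
  refine hv (fun a => φ (c a)) ?_ a
  funext j
  have h1 := congrFun hc j
  simp only [Finset.sum_apply, Pi.smul_apply, smul_eq_mul, Pi.zero_apply] at h1 ⊢
  have h2 := congrArg φ h1
  rw [map_sum, map_zero] at h2
  rw [← h2]
  refine Finset.sum_congr rfl fun a _ => ?_
  rw [mul_comm (c a), ← Algebra.smul_def, map_smul, smul_eq_mul, mul_comm]

/-- The coordinates of `v` are linearly independent over the algebraic numbers. -/
def NoRelation {n : ℕ} {κ : Type} (Ω : Type) [Field κ] [Field Ω] [Algebra ℚ Ω] [Algebra κ Ω]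
    (v : Fin n → κ) : Prop :=
  ∀ c : Fin n → Ω, (∀ j, IsAlgebraic ℚ (c j)) → ∑ j, c j * algebraMap κ Ω (v j) = 0 → c = 0

section key

variable {D Ω : Type} [DivisionRing D] [Algebra ℚ D] [FiniteDimensional ℚ D] [Field Ω]
  [Algebra ℚ Ω] [IsAlgClosed Ω] {n : ℕ}

omit [FiniteDimensional ℚ D] [IsAlgClosed Ω] in
theorem pow_indep (hn : 0 < n) (ρ : D →ₐ[ℚ] Matrix (Fin n) (Fin n) ℚ) (θ : D) (q : Polynomial Ω)
    (hq : q.natDegree < (minpoly ℚ θ).natDegree)
    (h0 : aeval ((ρ θ).map (algebraMap ℚ Ω)) q = 0) : q = 0 := by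
  classical
  have : Nonempty (Fin n) := ⟨⟨0, hn⟩⟩
  have hρ : Function.Injective ρ := ρ.toRingHom.injective
  have h1 := linearIndependent_pow (K := ℚ) θ
  have h2 : LinearIndependent ℚ fun i : Fin (minpoly ℚ θ).natDegree => (ρ θ) ^ (i : ℕ) := by
    have h2 := h1.map' ρ.toLinearMap (LinearMap.ker_eq_bot.mpr hρ)
    have h3 : (fun i : Fin (minpoly ℚ θ).natDegree => (ρ θ) ^ (i : ℕ)) =
        ρ.toLinearMap ∘ fun i : Fin (minpoly ℚ θ).natDegree => θ ^ (i : ℕ) := by
      funext i
      simp
    rw [h3]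
    exact h2
  let v : Fin (minpoly ℚ θ).natDegree → (Fin n × Fin n) → ℚ := fun i x => ((ρ θ) ^ (i : ℕ)) x.1 x.2
  have hv : LinearIndependent ℚ v := by
    rw [Fintype.linearIndependent_iff] at h2 ⊢
    intro g hg i
    refine h2 g ?_ i
    ext a b
    have := congrFun hg (a, b)
    simpa [v, Matrix.sum_apply] using this
  have h3 := indep_map (κ := Ω) v hv
  rw [Fintype.linearIndependent_iff] at h3
  have h4 := h3 (fun i => q.coeff i) (by
    funext x
    have h5 := congrFun (congrFun h0 x.1) x.2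
    rw [aeval_eq_sum_range' hq, Matrix.sum_apply, ← Fin.sum_univ_eq_sum_range] at h5
    simp only [Finset.sum_apply, Pi.smul_apply, Pi.zero_apply]
    rw [Matrix.zero_apply] at h5
    rw [← h5]
    refine Finset.sum_congr rfl fun i _ => ?_
    rw [Matrix.smul_apply, ← Matrix.map_pow]
    rfl)
  ext k
  by_cases hk : k < (minpoly ℚ θ).natDegree
  · exact h4 ⟨k, hk⟩
  · rw [coeff_zero]
    exact coeff_eq_zero_of_natDegree_lt (by omega)

/-- A polynomial of small degree does not annihilate the vector `ℓ`. -/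
theorem key (hn : 0 < n) (ρ : D →ₐ[ℚ] Matrix (Fin n) (Fin n) ℚ) (θ : D) (l : Fin n → Ω)
    (hl : ∀ c : Fin n → Ω, (∀ j, IsAlgebraic ℚ (c j)) → ∑ j, c j * l j = 0 → c = 0)
    (G : Polynomial Ω) (hG : G.natDegree < (minpoly ℚ θ).natDegree)
    (h0 : (aeval ((ρ θ).map (algebraMap ℚ Ω)) G).mulVec l = 0) : G = 0 := by
  classical
  by_contra hne
  set f := minpoly ℚ θ with hf
  have hint : IsIntegral ℚ θ := Algebra.IsIntegral.isIntegral θ
  have hirr : Irreducible f := minpoly.irreducible hint
  have hsep : f.Separable := hirr.separable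
  -- a root of `f` which is not a root of `G`
  obtain ⟨α, hα, hGα⟩ : ∃ α : Ω, aeval α f = 0 ∧ G.eval α ≠ 0 := by
    by_contra hcon
    push Not at hcon
    have h1 : Fintype.card (f.rootSet Ω) = f.natDegree :=
      card_rootSet_eq_natDegree hsep (IsAlgClosed.splits _)
    have h2 : f.rootSet Ω ⊆ (G.roots.toFinset : Set Ω) := by
      intro x hx
      rw [mem_rootSet] at hx
      simpa [hne] using hcon x hx.2
    have h3 : Fintype.card (f.rootSet Ω) ≤ G.roots.toFinset.card := by
      rw [← Set.toFinset_card]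
      refine Finset.card_le_card ?_
      intro x hx
      rw [Set.mem_toFinset] at hx
      exact_mod_cast h2 hx
    have h4 : G.roots.toFinset.card ≤ G.natDegree := (Multiset.toFinset_card_le _).trans (card_roots' G)
    omega
  set F : Polynomial Ω := f.map (algebraMap ℚ Ω) with hF
  have hFα : F.IsRoot α := by
    rw [IsRoot, hF, eval_map_algebraMap]; exact hα
  set q := F /ₘ (X - C α) with hq
  have hqF : (X - C α) * q = F := mul_divByMonic_eq_iff_isRoot.mpr hFα
  have hF0 : F ≠ 0 := (map_ne_zero hirr.ne_zero)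
  have hq0 : q ≠ 0 := by
    intro h; rw [h, mul_zero] at hqF; exact hF0 hqF.symm
  have hqdeg : q.natDegree < f.natDegree := by
    have h1 := congrArg natDegree hqF
    rw [natDegree_mul (X_sub_C_ne_zero α) hq0, natDegree_X_sub_C, hF, natDegree_map] at h1
    omega
  set Θ := (ρ θ).map (algebraMap ℚ Ω) with hΘ
  -- `F` annihilates `Θ`
  have hFΘ : aeval Θ F = 0 := by
    have h1 : aeval (ρ θ) f = 0 := by
      rw [aeval_algHom_apply, hf, minpoly.aeval, map_zero]
    have h2 : Θ = (Algebra.ofId ℚ Ω).mapMatrix (ρ θ) := rfl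
    rw [hF, aeval_map_algebraMap, h2, aeval_algHom_apply, h1, map_zero]
  obtain ⟨H, hH⟩ := X_sub_C_dvd_sub_C_eval (a := α) (p := G)
  have hqG : q * G = C (G.eval α) * q + H * F := by
    have : G = C (G.eval α) + (X - C α) * H := by rw [← hH]; ring
    conv_lhs => rw [this]
    rw [← hqF]; ring
  have hql : (aeval Θ q).mulVec l = 0 := by
    have h1 : (aeval Θ (q * G)).mulVec l = 0 := by
      rw [map_mul, ← Matrix.mulVec_mulVec, h0, Matrix.mulVec_zero]
    rw [hqG, map_add, map_mul, map_mul, hFΘ, mul_zero, add_zero, aeval_C, ← Algebra.smul_def,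
      Matrix.smul_mulVec] at h1
    exact (smul_eq_zero.mp h1).resolve_left hGα
  -- the entries are algebraic
  have hαalg : IsAlgebraic ℚ α := ⟨f, hirr.ne_zero, hα⟩
  have hqalg : ∀ k, q.coeff k ∈ Subalgebra.algebraicClosure ℚ Ω := by
    intro k
    rw [hq, coeff_divByMonic_X_sub_C]
    refine Subalgebra.sum_mem _ fun i _ => Subalgebra.mul_mem _ (Subalgebra.pow_mem _ hαalg _) ?_
    rw [hF, coeff_map]
    exact Subalgebra.algebraMap_mem _ _
  have hent : ∀ i j, (aeval Θ q) i j ∈ Subalgebra.algebraicClosure ℚ Ω := by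
    intro i j
    rw [aeval_eq_sum_range, Matrix.sum_apply]
    refine Subalgebra.sum_mem _ fun k _ => ?_
    rw [Matrix.smul_apply, hΘ, ← Matrix.map_pow]
    exact Subalgebra.mul_mem _ (hqalg k) (Subalgebra.algebraMap_mem _ _)
  have hzero : aeval Θ q = 0 := by
    ext i j
    have h1 : (aeval Θ q) i = 0 := by
      refine hl _ (fun j => hent i j) ?_
      exact congrFun hql i
    rw [h1]; rfl
  exact hq0 (pow_indep hn ρ θ q hqdeg hzero)

end key

section main

variable {D M κ : Type} [DivisionRing D] [Algebra ℚ D] [FiniteDimensional ℚ D] [AddCommGroup M]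
  [Module D M] [Module ℚ M] [IsScalarTower ℚ D M] [FiniteDimensional ℚ M] [Field κ] [Algebra ℚ κ]
  {n : ℕ}

/-- The line through `P` over the field generated by `θ`. -/
noncomputable def line (θ : D) (P : M) : Submodule ℚ M :=
  LinearMap.range (((LinearMap.toSpanSingleton D M P).restrictScalars ℚ) ∘ₗ (aeval θ).toLinearMap)

omit [FiniteDimensional ℚ D] [FiniteDimensional ℚ M] [IsScalarTower ℚ D M] in
theorem log_aeval (ρ : D →ₐ[ℚ] Matrix (Fin n) (Fin n) ℚ) (log : M →ₗ[ℚ] (Fin n → κ))
    (hlog : Equivariant ρ log) (θ : D) (P : M) (g : ℚ[X]) :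
    log (aeval θ g • P) = (aeval ((ρ θ).map (algebraMap ℚ κ)) (g.map (algebraMap ℚ κ))).mulVec
      (log P) := by
  rw [hlog]
  congr 1
  have h2 : (ρ θ).map (algebraMap ℚ κ) = (Algebra.ofId ℚ κ).mapMatrix (ρ θ) := rfl
  rw [aeval_map_algebraMap, h2, aeval_algHom_apply, ← aeval_algHom_apply ρ]
  rfl

/-- The second part. -/
theorem line_rank (hn : 0 < n) (Ω : Type) [Field Ω] [Algebra ℚ Ω] [Algebra κ Ω]
    [IsAlgClosed Ω] (ρ : D →ₐ[ℚ] Matrix (Fin n) (Fin n) ℚ)
    (log : M →ₗ[ℚ] (Fin n → κ)) (hlog : Equivariant ρ log) (θ : D) (P : M)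
    (hP : NoRelation Ω (log P)) (W : Submodule ℚ M) :
    finrank ℚ (W ⊓ line θ P : Submodule ℚ M) ≤ closureRank log W := by
  classical
  have : IsScalarTower ℚ κ Ω := IsScalarTower.of_algebraMap_eq' (Subsingleton.elim _ _)
  set W' := W ⊓ line θ P with hW'
  refine le_trans (le_of_eq ?_) (closureRank_mono log (inf_le_left : W' ≤ W))
  symm
  let w := finBasis ℚ W'
  have hw : ∀ a, ∃ g : ℚ[X], g.natDegree < (minpoly ℚ θ).natDegree ∧ aeval θ g • P = (w a : M) := by
    intro a
    obtain ⟨g, hg⟩ := (w a).2.2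
    have hmon : (minpoly ℚ θ).Monic := minpoly.monic (Algebra.IsIntegral.isIntegral θ)
    refine ⟨g %ₘ minpoly ℚ θ, ?_, ?_⟩
    · refine natDegree_modByMonic_lt _ hmon ?_
      exact minpoly.ne_one ℚ θ
    · rw [← hg]
      show _ = aeval θ g • P
      rw [aeval_modByMonic_eq_self_of_root (minpoly.aeval ℚ θ)]
  choose g hgdeg hg using hw
  have hgind : LinearIndependent ℚ g := by
    have h1 : LinearIndependent ℚ fun a => (((LinearMap.toSpanSingleton D M P).restrictScalars ℚ) ∘ₗ
        (aeval θ).toLinearMap) (g a) := by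
      have h2 := w.linearIndependent.map' W'.subtype (Submodule.ker_subtype _)
      have h3 : (fun a => (((LinearMap.toSpanSingleton D M P).restrictScalars ℚ) ∘ₗ
        (aeval θ).toLinearMap) (g a)) = W'.subtype ∘ w := funext fun a => hg a
      rw [h3]
      exact h2
    exact h1.of_comp _
  have hcoef : LinearIndependent ℚ (fun a (k : ℕ) => (g a).coeff k) := by
    rw [Fintype.linearIndependent_iff] at hgind ⊢
    intro c hc a
    refine hgind c ?_ a
    ext k
    have := congrFun hc k
    simpa [finsetSum_coeff] using this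
  have hcoef' := indep_map (κ := κ) _ hcoef
  refine closureRank_eq_of_indep log W' w ?_
  rw [Fintype.linearIndependent_iff] at hcoef' ⊢
  intro c hc
  refine hcoef' c ?_
  -- the polynomial
  let G : κ[X] := ∑ a, C (c a) * (g a).map (algebraMap ℚ κ)
  have hGl : (aeval ((ρ θ).map (algebraMap ℚ κ)) G).mulVec (log P) = 0 := by
    simp only [G, map_sum, map_mul, aeval_C]
    rw [← hc, Matrix.sum_mulVec]
    refine Finset.sum_congr rfl fun a _ => ?_
    rw [← hg a, log_aeval ρ log hlog, ← Algebra.smul_def, Matrix.smul_mulVec]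
  have hGdeg : G.natDegree < (minpoly ℚ θ).natDegree := by
    have hpos : 0 < (minpoly ℚ θ).natDegree := minpoly.natDegree_pos (Algebra.IsIntegral.isIntegral θ)
    have : G.natDegree ≤ (minpoly ℚ θ).natDegree - 1 := by
      refine natDegree_sum_le_of_forall_le _ _ fun a _ => ?_
      refine (natDegree_C_mul_le _ _).trans ?_
      refine natDegree_map_le.trans ?_
      have := hgdeg a
      omega
    omega
  have hG0 : G.map (algebraMap κ Ω) = 0 := by
    refine key hn ρ θ (fun j => algebraMap κ Ω (log P j)) hP _ (by rwa [natDegree_map]) ?_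
    have h2 : (ρ θ).map (algebraMap ℚ Ω) =
        (Algebra.ofId κ Ω).mapMatrix ((ρ θ).map (algebraMap ℚ κ)) := by
      ext i j
      simp [IsScalarTower.algebraMap_apply ℚ κ Ω]
    rw [aeval_map_algebraMap, h2, aeval_algHom_apply]
    have h3 : (fun j => algebraMap κ Ω (log P j)) = (algebraMap κ Ω) ∘ (log P) := rfl
    ext i
    have h4 := congrArg (algebraMap κ Ω) (congrFun hGl i)
    rw [RingHom.map_mulVec, Pi.zero_apply, map_zero] at h4
    exact h4
  have hG1 : G = 0 := (Polynomial.map_eq_zero _).mp hG0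
  funext k
  have h5 := congrArg (fun p => coeff p k) hG1
  simpa [G, finsetSum_coeff] using h5

end main

end Pool.Agent.Helper183_AV
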