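import Mathlib

/-!
# The maximal rank of a space of linear maps, and injective equivariant maps
-/

set_option autoImplicit false

open Module

namespace Pool.Agent.Helper183_AV

/-- If the rank of `A` is not less than the rank of `A + c B` for all `c`, then `B` maps the kernel
of `A` to the image of `A`. -/
theorem mem_range_of_max {k V T : Type*} [Field k] [Infinite k] [AddCommGroup V] [Module k V]
    [AddCommGroup T] [Module k T] [FiniteDimensional k V] [FiniteDimensional k T]
    (A B : V →ₗ[k] T) (h : ∀ c : k, finrank k (LinearMap.range (A + c • B)) ≤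
      finrank k (LinearMap.range A)) {w : V} (hw : A w = 0) : B w ∈ LinearMap.range A := by
  classical
  by_contra hB
  set r := finrank k (LinearMap.range A) with hr
  -- a basis of the image of `A`
  let e := finBasis k (LinearMap.range A)
  have he : ∀ i, ∃ v : V, A v = (e i : T) := fun i => (e i).2
  choose v hv using he
  -- the vectors `B w, A v_i` are independent
  have hind : LinearIndependent k (Fin.cons (B w) (fun i => (e i : T)) : Fin (r + 1) → T) := by
    rw [linearIndependent_finCons]
    refine ⟨?_, ?_⟩
    · have := e.linearIndependent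
      exact this.map' (Submodule.subtype _) (Submodule.ker_subtype _)
    · intro hm
      have h1 : Submodule.span k (Set.range fun i => (e i : T)) ≤ LinearMap.range A := by
        rw [Submodule.span_le]
        rintro _ ⟨i, rfl⟩
        exact (e i).2
      exact hB (h1 hm)
  -- the maps
  let J : (Fin (r + 1) → k) →ₗ[k] T := Fintype.linearCombination k (Fin.cons (B w) (fun i => (e i : T)))
  let J' : (Fin (r + 1) → k) →ₗ[k] T := Fintype.linearCombination k (Fin.cons 0 (fun i => B (v i)))
  have hJ : LinearMap.ker J = ⊥ := by
    rw [LinearMap.ker_eq_bot]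
    exact linearIndependent_iff_injective_fintypeLinearCombination.mp hind
  obtain ⟨π, hπ⟩ := LinearMap.exists_leftInverse_of_injective J hJ
  let N : Module.End k (Fin (r + 1) → k) := π ∘ₗ J'
  obtain ⟨μ, hμ⟩ := ((Module.End.finite_hasEigenvalue N).union (Set.finite_singleton (0 : k))).infinite_compl.nonempty
  have hμ0 : μ ≠ 0 := fun h0 => hμ (Or.inr h0)
  have hμe : ¬ N.HasEigenvalue μ := fun h0 => hμ (Or.inl h0)
  have hinj : Function.Injective (J + (-μ⁻¹) • J') := by
    rw [← LinearMap.ker_eq_bot, LinearMap.ker_eq_bot']
    intro x hx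
    have h1 : π (J x) + (-μ⁻¹) • N x = 0 := by
      have := congrArg π hx
      simpa [N] using this
    have h2 : π (J x) = x := by
      have := LinearMap.congr_fun hπ x
      simpa using this
    rw [h2] at h1
    by_contra hx0
    apply hμe
    refine Module.End.hasEigenvalue_of_hasEigenvector (x := x) ⟨?_, hx0⟩
    rw [Module.End.mem_eigenspace_iff]
    have h3 : x = μ⁻¹ • N x := by
      rw [neg_smul] at h1
      exact eq_of_sub_eq_zero (by rw [sub_eq_add_neg]; exact h1)
    calc N x = (μ * μ⁻¹) • N x := by rw [mul_inv_cancel₀ hμ0, one_smul]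
      _ = μ • (μ⁻¹ • N x) := by rw [mul_smul]
      _ = μ • x := by rw [← h3]
  -- the image is contained in the image of `A + c B`
  have hrange : LinearMap.range (J + (-μ⁻¹) • J') ≤ LinearMap.range (A + (-μ⁻¹) • B) := by
    rintro _ ⟨x, rfl⟩
    have hc : (-μ⁻¹ : k) ≠ 0 := neg_ne_zero.mpr (inv_ne_zero hμ0)
    have e1 : (J + (-μ⁻¹) • J') x = ∑ i, x i • ((Fin.cons (B w) (fun i => (e i : T)) : Fin (r + 1) → T) i +
        (-μ⁻¹) • (Fin.cons 0 (fun i => B (v i)) : Fin (r + 1) → T) i) := by
      simp only [LinearMap.add_apply, LinearMap.smul_apply, J, J', Fintype.linearCombination_apply,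
        Finset.smul_sum, ← Finset.sum_add_distrib, smul_add]
      refine Finset.sum_congr rfl fun i _ => ?_
      rw [smul_comm]
    rw [e1]
    refine Submodule.sum_mem _ fun i _ => Submodule.smul_mem _ _ ?_
    refine Fin.cases ?_ (fun j => ?_) i
    · simp only [Fin.cons_zero, smul_zero, add_zero]
      refine ⟨(-μ⁻¹)⁻¹ • w, ?_⟩
      rw [LinearMap.map_smul, LinearMap.add_apply, hw, zero_add, LinearMap.smul_apply, smul_smul,
        inv_mul_cancel₀ hc, one_smul]
    · simp only [Fin.cons_succ]
      exact ⟨v j, by rw [LinearMap.add_apply, LinearMap.smul_apply, hv j]⟩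
  have h5 := Submodule.finrank_mono hrange
  rw [LinearMap.finrank_range_of_inj hinj, Module.finrank_fin_fun] at h5
  have h6 := h (-μ⁻¹)
  omega

/-- Let `D` be a division algebra, `M`, `T` vector spaces over `D`. For every subspace `W` over `k` of `M` of
dimension at most `dim T` there is a `D`-linear map from `M` to `T` which is injective on `W`. -/
theorem exists_injective {k D M T : Type*} [Field k] [Infinite k] [DivisionRing D] [Algebra k D]
    [AddCommGroup M] [Module D M] [Module k M] [IsScalarTower k D M] [FiniteDimensional k M]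
    [AddCommGroup T] [Module D T] [Module k T] [IsScalarTower k D T] [FiniteDimensional k T]
    (W : Submodule k M) (hW : finrank k W ≤ finrank k T) :
    ∃ f : M →ₗ[D] T, Function.Injective ((f.restrictScalars k) ∘ₗ W.subtype) := by
  classical
  -- a map of maximal rank
  let R : (M →ₗ[D] T) → ℕ := fun f =>
    finrank k (LinearMap.range ((f.restrictScalars k) ∘ₗ W.subtype))
  have hbdd : BddAbove (Set.range R) := by
    refine ⟨finrank k T, ?_⟩
    rintro _ ⟨f, rfl⟩
    exact Submodule.finrank_le _
  obtain ⟨f, hf⟩ := Nat.sSup_mem (Set.range_nonempty R) hbdd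
  have hmax : ∀ g, R g ≤ R f := fun g => by
    rw [hf]
    exact le_csSup hbdd ⟨g, rfl⟩
  refine ⟨f, ?_⟩
  rw [← LinearMap.ker_eq_bot, LinearMap.ker_eq_bot']
  intro w hw
  by_contra hw0
  have hw0' : (w : M) ≠ 0 := fun h => hw0 (Subtype.ext h)
  -- every vector of `T` is in the image
  have htop : LinearMap.range ((f.restrictScalars k) ∘ₗ W.subtype) = ⊤ := by
    rw [eq_top_iff]
    intro y _
    have hnot : (w : M) ∉ (⊥ : Submodule D M) := by simpa using hw0'
    obtain ⟨g, -, hg⟩ := LinearMap.exists_extend_of_notMem (p := (⊥ : Submodule D M)) 0 hnot y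
    have hgy : (g.restrictScalars k ∘ₗ W.subtype) w = y := hg
    rw [← hgy]
    refine mem_range_of_max _ _ (fun c => ?_) hw
    let fc : M →ₗ[D] T :=
      { toFun := fun x => f x + c • g x
        map_add' := fun x x' => by simp only [map_add, smul_add]; abel
        map_smul' := fun d x => by
          simp only [map_smul, RingHom.id_apply, smul_add]
          congr 1
          rw [← algebraMap_smul D c (d • g x), ← algebraMap_smul D c (g x), smul_smul, smul_smul,
            Algebra.commutes] }
    have hfc : (fc.restrictScalars k) ∘ₗ W.subtype =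
        (f.restrictScalars k ∘ₗ W.subtype) + c • (g.restrictScalars k ∘ₗ W.subtype) := by
      ext x
      rfl
    have h5 := hmax fc
    simp only [R] at h5
    rw [hfc] at h5
    exact h5
  have h1 : R f = finrank k T := by
    show finrank k (LinearMap.range ((f.restrictScalars k) ∘ₗ W.subtype)) = finrank k T
    rw [htop, finrank_top]
  have h2 := LinearMap.finrank_range_add_finrank_ker ((f.restrictScalars k) ∘ₗ W.subtype)
  have h3 : finrank k (LinearMap.ker ((f.restrictScalars k) ∘ₗ W.subtype)) = 0 := by
    have : finrank k (LinearMap.range ((f.restrictScalars k) ∘ₗ W.subtype)) = finrank k T := h1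
    omega
  rw [Submodule.finrank_eq_zero] at h3
  have h4 : w ∈ LinearMap.ker ((f.restrictScalars k) ∘ₗ W.subtype) := hw
  rw [h3, Submodule.mem_bot] at h4
  exact hw0 h4

end Pool.Agent.Helper183_AV
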